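import Mathlib
import Pool.Agent.TH949.TX.SMain
import Pool.Agent.TH949.TX.Count

/-! Signed sums at every scale: abstract versions for `L(s, π × π~) / ζ(s)`. -/

set_option autoImplicit false

open Complex MeasureTheory Set Filter Topology
open Pool.Agent.W189.TP (DS DS_diff DS_norm_le summ_mono)
open Pool.Agent.TH949.TX (AA main_sum)

namespace Pool.Agent.Q18.RS

theorem ds_neg {ι : Type*} (d L : ι → ℝ) (s : ℂ) : DS (fun i => -d i) L s = -DS d L s := by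
  unfold DS
  rw [← tsum_neg]
  refine tsum_congr fun i => ?_
  push_cast
  ring

theorem order_ne_top {ι : Type*} [Countable ι] {d L : ι → ℝ} (hL : ∀ i, 0 ≤ L i)
    (habs : ∀ t : ℝ, 1 < t → Summable fun i => |d i| * Real.exp (-(t * L i)))
    {F : ℂ → ℂ} (hF : MeromorphicOn F univ) (hE : ∀ s : ℂ, 1 < s.re → F s = cexp (DS d L s)) (x : ℂ) :
    meromorphicOrderAt F x ≠ ⊤ := by
  intro h
  obtain ⟨Z, m, -, hZ1, hZ2, -, -⟩ := Pool.Agent.TH949.TX.t_extract hL habs hF hE (c := min x.re 0) (H := |x.im| + 1)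
    (lt_of_le_of_lt (min_le_right _ _) (by norm_num)) (by positivity)
  have h1 := (hZ1 x (hZ2 x (min_le_left _ _) (by linarith) (by rw [h]; simp))).2.2.2.1
  rw [h] at h1
  exact absurd h1 (by simp)

/-- near the left of `1/2` there are no real poles -/
theorem near_half {F : ℂ → ℂ} (hF : MeromorphicOn F univ) :
    ∃ a0 : ℝ, a0 < 1 / 2 ∧ ∀ x : ℝ, a0 < x → x < 1 / 2 → 0 ≤ meromorphicOrderAt F (x : ℂ) := by
  have h1 := (hF ((1 / 2 : ℝ) : ℂ) (mem_univ _)).eventually_analyticAt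
  rw [eventually_nhdsWithin_iff, Metric.eventually_nhds_iff] at h1
  obtain ⟨ε, hε, h1⟩ := h1
  refine ⟨1 / 2 - ε, by linarith, fun x hx1 hx2 => ?_⟩
  refine (h1 (y := (x : ℂ)) ?_ ?_).meromorphicOrderAt_nonneg
  · rw [Complex.dist_eq, ← Complex.ofReal_sub, Complex.norm_real, Real.norm_eq_abs, abs_lt]
    constructor <;> linarith
  · rw [mem_compl_iff, mem_singleton_iff, Complex.ofReal_inj]
    exact hx2.ne

/-- an exponent slightly larger than `c` -/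
theorem exists_exponent {F : ℂ → ℂ} (hF : MeromorphicOn F univ)
    (hex : ∀ δ : ℝ, 0 < δ → ∃ ρ : ℂ, 1 / 2 - δ < ρ.re ∧ ρ.im ≠ 0 ∧ meromorphicOrderAt F ρ ≠ 0) {c : ℝ}
    (hc : c < 1 / 2 ∨ ∃ ρ : ℂ, c < ρ.re ∧ meromorphicOrderAt F ρ ≠ 0)
    (hreal : ∀ x : ℝ, 1 / 2 ≤ x → 0 ≤ meromorphicOrderAt F (x : ℂ)) :
    ∃ a : ℝ, c < a ∧ 0 < a ∧ (∃ ρ : ℂ, a < ρ.re ∧ meromorphicOrderAt F ρ ≠ 0) ∧
      ∀ x : ℝ, a < x → 0 ≤ meromorphicOrderAt F (x : ℂ) := by
  obtain ⟨a0, ha0, h0⟩ := near_half hF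
  by_cases hc2 : c < 1 / 2
  · refine ⟨(max (max c a0) 0 + 1 / 2) / 2, ?_, ?_, ?_, ?_⟩
    · have := (le_max_left c a0).trans (le_max_left _ (0 : ℝ))
      linarith
    · have := le_max_right (max c a0) (0 : ℝ)
      linarith
    · have hm : max (max c a0) 0 < 1 / 2 := max_lt (max_lt hc2 ha0) (by norm_num)
      obtain ⟨ρ, h1, -, h3⟩ := hex (1 / 2 - (max (max c a0) 0 + 1 / 2) / 2) (by linarith)
      exact ⟨ρ, by linarith, h3⟩
    · intro x hx
      rcases le_or_gt (1 / 2) x with h4 | h4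
      · exact hreal x h4
      · refine h0 x ?_ h4
        have := (le_max_right c a0).trans (le_max_left _ (0 : ℝ))
        have hm : max (max c a0) 0 < 1 / 2 := max_lt (max_lt hc2 ha0) (by norm_num)
        linarith
  · rcases hc with hc | ⟨ρ, h1, h2⟩
    · exact absurd hc hc2
    · push Not at hc2
      exact ⟨(c + ρ.re) / 2, by linarith, by linarith, ⟨ρ, by linarith, h2⟩, fun x hx => hreal x (by linarith)⟩

/-- the signed sum takes large negative values at every scale -/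
theorem sum_neg {ι : Type*} [Countable ι] {d L : ι → ℝ} (hL : ∀ i, 0 ≤ L i)
    (habs : ∀ t : ℝ, 1 < t → Summable fun i => |d i| * Real.exp (-(t * L i)))
    {F : ℂ → ℂ} (hF : MeromorphicOn F univ) (hE : ∀ s : ℂ, 1 < s.re → F s = cexp (DS d L s))
    (hreal : ∀ x : ℝ, 1 / 2 ≤ x → 0 ≤ meromorphicOrderAt F (x : ℂ))
    (hex : ∀ δ : ℝ, 0 < δ → ∃ ρ : ℂ, 1 / 2 - δ < ρ.re ∧ ρ.im ≠ 0 ∧ meromorphicOrderAt F ρ ≠ 0) {c : ℝ}
    (hc : c < 1 / 2 ∨ ∃ ρ : ℂ, c < ρ.re ∧ meromorphicOrderAt F ρ ≠ 0) :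
    ∃ a : ℝ, c < a ∧ 0 < a ∧ ∀ lam : ℝ, 0 < lam → lam ≤ 1 → ∀ᶠ Y : ℝ in atTop, ∃ u : ℝ, |u - Y| ≤ lam * Y ∧
      Real.exp (a * u) ≤ AA (fun i => -d i) L u := by
  obtain ⟨a, h1, h2, ⟨ρ, h3, h4⟩, h5⟩ := exists_exponent hF hex hc hreal
  refine ⟨a, h1, h2, fun lam hlam hlam1 => ?_⟩
  refine main_sum (d := fun i => -d i) (F := F⁻¹) hL (fun t ht => ?_) hF.inv (fun s hs => ?_) h2.le (fun x hx => ?_)
    ⟨ρ, h3, ?_⟩ hlam hlam1
  · simpa only [abs_neg] using habs t ht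
  · rw [Pi.inv_apply, hE s hs, ds_neg, Complex.exp_neg]
  · rw [meromorphicOrderAt_inv]
    have h6 := h5 x hx
    cases h7 : meromorphicOrderAt F (x : ℂ) with
    | top => exact absurd h7 (order_ne_top hL habs hF hE _)
    | coe m =>
      rw [h7] at h6
      have h8 : 0 ≤ m := by exact_mod_cast h6
      have h9 : (-(m : WithTop ℤ)) = ((-m : ℤ) : WithTop ℤ) := rfl
      rw [h9]
      exact_mod_cast (by omega : -m ≤ 0)
  · rw [meromorphicOrderAt_inv]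
    intro h6
    apply h4
    cases h7 : meromorphicOrderAt F ρ with
    | top => rw [h7] at h6; exact absurd h6 (by simp)
    | coe m =>
      rw [h7] at h6
      have h9 : (-(m : WithTop ℤ)) = ((-m : ℤ) : WithTop ℤ) := rfl
      rw [h9] at h6
      have h10 : -m = 0 := by exact_mod_cast h6
      have h11 : m = 0 := by omega
      rw [h11]
      rfl

/-- the signed sum takes large positive values at every scale, if there are no real zeros -/
theorem sum_pos' {ι : Type*} [Countable ι] {d L : ι → ℝ} (hL : ∀ i, 0 ≤ L i)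
    (habs : ∀ t : ℝ, 1 < t → Summable fun i => |d i| * Real.exp (-(t * L i)))
    {F : ℂ → ℂ} (hF : MeromorphicOn F univ) (hE : ∀ s : ℂ, 1 < s.re → F s = cexp (DS d L s))
    (hex : ∀ δ : ℝ, 0 < δ → ∃ ρ : ℂ, 1 / 2 - δ < ρ.re ∧ ρ.im ≠ 0 ∧ meromorphicOrderAt F ρ ≠ 0) {c : ℝ}
    (hreal : ∀ x : ℝ, c < x → meromorphicOrderAt F (x : ℂ) ≤ 0)
    (hc : c < 1 / 2 ∨ ∃ ρ : ℂ, c < ρ.re ∧ meromorphicOrderAt F ρ ≠ 0) :
    ∃ a : ℝ, c < a ∧ 0 < a ∧ ∀ lam : ℝ, 0 < lam → lam ≤ 1 → ∀ᶠ Y : ℝ in atTop, ∃ u : ℝ, |u - Y| ≤ lam * Y ∧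
      Real.exp (a * u) ≤ AA d L u := by
  obtain ⟨a, h1, h2, h3⟩ : ∃ a : ℝ, c < a ∧ 0 < a ∧ ∃ ρ : ℂ, a < ρ.re ∧ meromorphicOrderAt F ρ ≠ 0 := by
    by_cases hc2 : c < 1 / 2
    · have hm : max c 0 < 1 / 2 := max_lt hc2 (by norm_num)
      obtain ⟨ρ, h1, -, h3⟩ := hex (1 / 2 - (max c 0 + 1 / 2) / 2) (by linarith)
      refine ⟨(max c 0 + 1 / 2) / 2, ?_, ?_, ρ, by linarith, h3⟩
      · have := le_max_left c 0
        linarith
      · have := le_max_right c 0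
        linarith
    · rcases hc with hc | ⟨ρ, h1, h2⟩
      · exact absurd hc hc2
      · push Not at hc2
        exact ⟨(c + ρ.re) / 2, by linarith, by linarith, ρ, by linarith, h2⟩
  exact ⟨a, h1, h2, fun lam hlam hlam1 => main_sum hL habs hF hE h2.le (fun x hx => hreal x (h1.trans hx)) h3 hlam hlam1⟩

end Pool.Agent.Q18.RS
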