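import Mathlib
import Pool.Agent.Q18.RS.Sum
import Pool.Agent.TH949.TX.Sph

/-! Signed sums over the primes at every scale, `GL_n` over `ℚ`. -/

set_option autoImplicit false

open Complex MeasureTheory Set Filter Topology
open Pool.Agent.W189.TP (DS DS_diff DS_norm_le summ_mono PS LL LL_nonneg exp_LL rexp_LL logRS bad dd)
open Pool.Agent.TH949.TX (AA main_sum LL_fin LL_le primes_card primes_log_fin)

namespace Pool.Agent.Q18.RS

/-- from a window for the logarithm to a window `[X^{1-δ}, X]` -/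
theorem to_window {A : ℝ → ℝ} {a : ℝ} (h : ∀ lam : ℝ, 0 < lam → lam ≤ 1 → ∀ᶠ Y : ℝ in atTop, ∃ u : ℝ,
      |u - Y| ≤ lam * Y ∧ Real.exp (a * u) ≤ A u) {δ : ℝ} (hδ : 0 < δ) {P : ℝ → Prop} (hP : ∀ᶠ x : ℝ in atTop, P x) :
    ∀ᶠ X : ℝ in atTop, ∃ x : ℝ, X ^ (1 - δ) ≤ x ∧ x ≤ X ∧ P x ∧ x ^ a ≤ A (Real.log x) := by
  obtain ⟨x0, hx0⟩ := eventually_atTop.1 hP
  set l : ℝ := min (δ / 2) (1 / 2) with hl
  have hl0 : 0 < l := lt_min (by linarith) (by norm_num)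
  have hl1 : l ≤ 1 / 2 := min_le_right _ _
  have hl2 : l ≤ δ / 2 := min_le_left _ _
  have ht : Tendsto (fun X : ℝ => Real.log X / (1 + l)) atTop atTop :=
    Real.tendsto_log_atTop.atTop_div_const (by linarith)
  filter_upwards [ht.eventually (h l hl0 (by linarith)), eventually_gt_atTop 1,
    Real.tendsto_log_atTop.eventually_ge_atTop (3 * Real.log (max x0 1))] with X hX hX1 hX2
  obtain ⟨u, hu, hA⟩ := hX
  have hlog : 0 < Real.log X := Real.log_pos hX1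
  set Y : ℝ := Real.log X / (1 + l) with hY
  have hYX : (1 + l) * Y = Real.log X := by rw [hY]; field_simp
  have hY0 : 0 < Y := by rw [hY]; positivity
  obtain ⟨hu1, hu2⟩ := abs_le.1 hu
  have h1 : u ≤ Real.log X := by rw [← hYX]; linarith
  have h2 : (1 - δ) * Real.log X ≤ u := by
    rw [← hYX]
    have h3 : (1 - δ) * (1 + l) ≤ 1 - l := by nlinarith
    have h4 : (1 - δ) * ((1 + l) * Y) ≤ (1 - l) * Y := by
      rw [← mul_assoc]
      exact mul_le_mul_of_nonneg_right h3 hY0.le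
    linarith
  have h3 : Real.log X / 3 ≤ u := by
    rw [← hYX]
    nlinarith
  refine ⟨Real.exp u, ?_, ?_, hx0 _ ?_, ?_⟩
  · rw [Real.rpow_def_of_pos (by linarith), Real.exp_le_exp]
    linarith
  · rw [← Real.le_log_iff_exp_le (by linarith)]
    exact h1
  · have h5 : Real.log (max x0 1) ≤ u := by linarith
    have h6 : max x0 1 ≤ Real.exp u := by
      rwa [Real.log_le_iff_le_exp (lt_max_of_lt_right one_pos)] at h5
    exact (le_max_left _ _).trans h6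
  · rw [Real.log_exp, ← Real.exp_mul, mul_comm]
    exact hA

variable {S : Finset Nat.Primes} {n : ℕ}

/-- `∑_{p^k ≤ x} (1 - |tr(p^k)|²) / k` -/
theorem AA_neg (α : PS S → Fin n → ℂ) {x : ℝ} (hx : 0 < x) :
    AA (fun y => -dd α y) LL (Real.log x) = ∑' y : PS S × ℕ, (open Classical in
      if ((y.1.1 : ℕ) : ℝ) ^ (y.2 + 1) ≤ x then (1 - ‖∑ i, α y.1 i ^ (y.2 + 1)‖ ^ 2) / ((y.2 : ℝ) + 1) else 0) := by
  unfold AA
  refine tsum_congr fun y => ?_
  simp only [LL_le hx]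
  split_ifs
  · unfold dd
    ring
  · rfl

theorem AA_pos (α : PS S → Fin n → ℂ) {x : ℝ} (hx : 0 < x) :
    AA (dd α) LL (Real.log x) = ∑' y : PS S × ℕ, (open Classical in
      if ((y.1.1 : ℕ) : ℝ) ^ (y.2 + 1) ≤ x then (‖∑ i, α y.1 i ^ (y.2 + 1)‖ ^ 2 - 1) / ((y.2 : ℝ) + 1) else 0) := by
  unfold AA
  refine tsum_congr fun y => ?_
  simp only [LL_le hx]
  split_ifs
  · rfl
  · rfl

/-- the prime powers contribute at most `√x (log x / log 2 + 1)` -/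
theorem primes_of_powers {α : PS S → Fin n → ℂ} {x : ℝ} (hx : 1 ≤ x) :
    (∑' y : PS S × ℕ, (open Classical in
      if ((y.1.1 : ℕ) : ℝ) ^ (y.2 + 1) ≤ x then (1 - ‖∑ i, α y.1 i ^ (y.2 + 1)‖ ^ 2) / ((y.2 : ℝ) + 1) else 0)) ≤
    (∑' p : PS S, (open Classical in if ((p.1 : ℕ) : ℝ) ≤ x then 1 - ‖∑ i, α p i‖ ^ 2 else 0)) +
      x ^ (1 / 2 : ℝ) * (Real.log x / Real.log 2 + 1) := by
  classical
  have hx0 : 0 < x := by linarith
  have hlog2 : 0 < Real.log 2 := Real.log_pos (by norm_num)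
  have hlx : 0 ≤ Real.log x := Real.log_nonneg hx
  have hfin : {y : PS S × ℕ | LL y ≤ Real.log x}.Finite := LL_fin _
  have hfin1 : {p : PS S | Real.log ((p.1 : ℕ) : ℝ) ≤ Real.log x}.Finite := primes_log_fin _
  have hfin2 : {p : PS S | Real.log ((p.1 : ℕ) : ℝ) ≤ Real.log x / 2}.Finite := primes_log_fin _
  set T := hfin.toFinset with hT
  set T1 := hfin1.toFinset with hT1
  set T2 := hfin2.toFinset with hT2
  set f : PS S × ℕ → ℝ := fun y =>
    if ((y.1.1 : ℕ) : ℝ) ^ (y.2 + 1) ≤ x then (1 - ‖∑ i, α y.1 i ^ (y.2 + 1)‖ ^ 2) / ((y.2 : ℝ) + 1) else 0 with hf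
  have hmem : ∀ y : PS S × ℕ, y ∈ T ↔ ((y.1.1 : ℕ) : ℝ) ^ (y.2 + 1) ≤ x := fun y => by
    rw [hT, Set.Finite.mem_toFinset, Set.mem_ofPred_eq, LL_le hx0]
  have hmem1 : ∀ p : PS S, p ∈ T1 ↔ ((p.1 : ℕ) : ℝ) ≤ x := fun p => by
    have hp : (0 : ℝ) < ((p.1 : ℕ) : ℝ) := by exact_mod_cast p.1.2.pos
    rw [hT1, Set.Finite.mem_toFinset, Set.mem_ofPred_eq, Real.log_le_log_iff hp hx0]
  have h1 : ∑' y, f y = ∑ y ∈ T, f y := tsum_eq_sum fun y hy => by
    rw [hf]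
    simp only
    rw [if_neg ((hmem y).not.1 hy)]
  have h2 : (∑' p : PS S, (if ((p.1 : ℕ) : ℝ) ≤ x then 1 - ‖∑ i, α p i‖ ^ 2 else 0)) =
      ∑ p ∈ T1, (1 - ‖∑ i, α p i‖ ^ 2) := by
    rw [tsum_eq_sum (s := T1) fun p hp => by rw [if_neg ((hmem1 p).not.1 hp)]]
    exact Finset.sum_congr rfl fun p hp => by rw [if_pos ((hmem1 p).1 hp)]
  have h3 : ∑ y ∈ T, f y = ∑ y ∈ T with y.2 = 0, f y + ∑ y ∈ T with ¬ y.2 = 0, f y :=
    (Finset.sum_filter_add_sum_filter_not T _ _).symm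
  have h4 : ∑ y ∈ T with y.2 = 0, f y = ∑ p ∈ T1, (1 - ‖∑ i, α p i‖ ^ 2) := by
    have e1 : T.filter (fun y => y.2 = 0) = T1.map ⟨fun p : PS S => (p, 0), fun p q h => (Prod.ext_iff.1 h).1⟩ := by
      ext ⟨p, k⟩
      simp only [Finset.mem_filter, Finset.mem_map, Function.Embedding.coeFn_mk, Prod.mk.injEq, hmem, hmem1]
      constructor
      · rintro ⟨h5, rfl⟩
        exact ⟨p, by simpa using h5, rfl, rfl⟩
      · rintro ⟨q, h5, rfl, rfl⟩
        exact ⟨by simpa using h5, rfl⟩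
    rw [e1, Finset.sum_map]
    refine Finset.sum_congr rfl fun p hp => ?_
    rw [hf]
    simp only [Function.Embedding.coeFn_mk, zero_add, pow_one, Nat.cast_zero, div_one]
    rw [if_pos ((hmem1 p).1 hp)]
  have h5 : ∑ y ∈ T with ¬ y.2 = 0, f y ≤ ((T.filter fun y => ¬ y.2 = 0).card : ℝ) := by
    rw [Finset.card_eq_sum_ones, Nat.cast_sum]
    refine Finset.sum_le_sum fun y hy => ?_
    have hk : (0 : ℝ) ≤ y.2 := Nat.cast_nonneg _
    rw [hf]
    simp only [Nat.cast_one]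
    split_ifs
    · rw [div_le_one (by linarith)]
      nlinarith [sq_nonneg ‖∑ i, α y.1 i ^ (y.2 + 1)‖]
    · norm_num
  have h6 : (T.filter fun y => ¬ y.2 = 0) ⊆ T2 ×ˢ Finset.range (⌊Real.log x / Real.log 2⌋₊ + 1) := by
    rintro ⟨p, k⟩ hy
    rw [Finset.mem_filter, hT, Set.Finite.mem_toFinset] at hy
    obtain ⟨hy1, hy2⟩ := hy
    have hl : Real.log 2 ≤ Real.log ((p.1 : ℕ) : ℝ) :=
      Real.log_le_log (by norm_num) (by exact_mod_cast p.1.2.two_le)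
    have hy3 : ((k : ℝ) + 1) * Real.log ((p.1 : ℕ) : ℝ) ≤ Real.log x := hy1
    have hk1 : (1 : ℝ) ≤ k := by
      have : 1 ≤ k := Nat.one_le_iff_ne_zero.2 hy2
      exact_mod_cast this
    rw [Finset.mem_product, hT2, Set.Finite.mem_toFinset, Finset.mem_range, Nat.lt_succ_iff]
    constructor
    · show Real.log ((p.1 : ℕ) : ℝ) ≤ Real.log x / 2
      nlinarith
    · show k ≤ _
      refine Nat.le_floor ?_
      rw [le_div_iff₀ hlog2]
      nlinarith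
  have h7 : ((T.filter fun y => ¬ y.2 = 0).card : ℝ) ≤ x ^ (1 / 2 : ℝ) * (Real.log x / Real.log 2 + 1) := by
    have e1 := Finset.card_le_card h6
    rw [Finset.card_product, Finset.card_range] at e1
    have e2 : (T2.card : ℝ) ≤ x ^ (1 / 2 : ℝ) := by
      have e3 := primes_card (S := S) (Real.log x / 2)
      rw [Set.ncard_eq_toFinset_card _ hfin2, one_mul] at e3
      refine e3.trans (le_of_eq ?_)
      rw [Real.rpow_def_of_pos hx0]
      congr 1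
      ring
    have e4 : ((⌊Real.log x / Real.log 2⌋₊ + 1 : ℕ) : ℝ) ≤ Real.log x / Real.log 2 + 1 := by
      push_cast
      have := Nat.floor_le (a := Real.log x / Real.log 2) (by positivity)
      linarith
    calc ((T.filter fun y => ¬ y.2 = 0).card : ℝ) ≤ ((T2.card * (⌊Real.log x / Real.log 2⌋₊ + 1) : ℕ) : ℝ) := by
          exact_mod_cast e1
      _ = (T2.card : ℝ) * ((⌊Real.log x / Real.log 2⌋₊ + 1 : ℕ) : ℝ) := by push_cast; ring
      _ ≤ _ := mul_le_mul e2 e4 (by positivity) (by positivity)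
  rw [h1, h2, h3, h4]
  linarith

/-- `√x log x` is smaller than a power of exponent larger than `1/2` -/
theorem sqrt_log_lt {a c : ℝ} (hc : 1 / 2 ≤ c) (hca : c < a) :
    ∀ᶠ x : ℝ in atTop, x ^ c + x ^ (1 / 2 : ℝ) * (Real.log x / Real.log 2 + 1) ≤ x ^ a := by
  have hlog2 : 0 < Real.log 2 := Real.log_pos (by norm_num)
  have h1 : Tendsto (fun x : ℝ => (2 + Real.log x / Real.log 2) / x ^ (a - c)) atTop (𝓝 0) := by
    have e1 : Tendsto (fun x : ℝ => Real.log x / x ^ (a - c)) atTop (𝓝 0) :=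
      (isLittleO_log_rpow_atTop (by linarith)).tendsto_div_nhds_zero
    have e2 : Tendsto (fun x : ℝ => 2 / x ^ (a - c)) atTop (𝓝 0) :=
      (tendsto_rpow_atTop (by linarith)).const_div_atTop 2
    have e3 := e2.add (e1.div_const (Real.log 2))
    rw [zero_div, add_zero] at e3
    refine e3.congr fun x => ?_
    ring
  filter_upwards [h1.eventually (gt_mem_nhds (one_pos)), eventually_ge_atTop 1] with x hx hx1
  have hx0 : 0 < x := by linarith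
  have hpos : 0 < x ^ (a - c) := Real.rpow_pos_of_pos hx0 _
  rw [div_lt_one hpos] at hx
  have e1 : x ^ a = x ^ (a - c) * x ^ c := by
    rw [← Real.rpow_add hx0]
    congr 1
    ring
  have e2 : x ^ (1 / 2 : ℝ) ≤ x ^ c := Real.rpow_le_rpow_of_exponent_le hx1 hc
  have e3 : 0 ≤ Real.log x / Real.log 2 + 1 := by
    have := Real.log_nonneg hx1
    positivity
  have e4 : 0 < x ^ c := Real.rpow_pos_of_pos hx0 _
  calc x ^ c + x ^ (1 / 2 : ℝ) * (Real.log x / Real.log 2 + 1) ≤ x ^ c + x ^ c * (Real.log x / Real.log 2 + 1) := by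
        gcongr
    _ = (2 + Real.log x / Real.log 2) * x ^ c := by ring
    _ ≤ x ^ (a - c) * x ^ c := by gcongr
    _ = x ^ a := e1.symm

/-- from the signed sum over the prime powers to the one over the primes -/
theorem primes_neg {α : PS S → Fin n → ℂ} {c a : ℝ} (hc : 1 / 2 ≤ c) (hca : c < a)
    (h : ∀ lam : ℝ, 0 < lam → lam ≤ 1 → ∀ᶠ Y : ℝ in atTop, ∃ u : ℝ,
      |u - Y| ≤ lam * Y ∧ Real.exp (a * u) ≤ AA (fun y => -dd α y) LL u) {δ : ℝ} (hδ : 0 < δ) :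
    ∀ᶠ X : ℝ in atTop, ∃ x : ℝ, X ^ (1 - δ) ≤ x ∧ x ≤ X ∧ x ^ c ≤ ∑' p : PS S, (open Classical in
      if ((p.1 : ℕ) : ℝ) ≤ x then 1 - ‖∑ i, α p i‖ ^ 2 else 0) := by
  filter_upwards [to_window h hδ ((sqrt_log_lt hc hca).and (eventually_ge_atTop 1))] with X hX
  obtain ⟨x, h1, h2, ⟨h3, h4⟩, h5⟩ := hX
  refine ⟨x, h1, h2, ?_⟩
  rw [AA_neg α (by linarith)] at h5
  have h6 := primes_of_powers (α := α) h4
  linarith

theorem powers_neg {α : PS S → Fin n → ℂ} {c a : ℝ} (hca : c < a)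
    (h : ∀ lam : ℝ, 0 < lam → lam ≤ 1 → ∀ᶠ Y : ℝ in atTop, ∃ u : ℝ,
      |u - Y| ≤ lam * Y ∧ Real.exp (a * u) ≤ AA (fun y => -dd α y) LL u) {δ : ℝ} (hδ : 0 < δ) :
    ∀ᶠ X : ℝ in atTop, ∃ x : ℝ, X ^ (1 - δ) ≤ x ∧ x ≤ X ∧ x ^ c ≤ ∑' y : PS S × ℕ, (open Classical in
      if ((y.1.1 : ℕ) : ℝ) ^ (y.2 + 1) ≤ x then (1 - ‖∑ i, α y.1 i ^ (y.2 + 1)‖ ^ 2) / ((y.2 : ℝ) + 1) else 0) := by
  filter_upwards [to_window h hδ (eventually_ge_atTop 1)] with X hX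
  obtain ⟨x, h1, h2, h4, h5⟩ := hX
  refine ⟨x, h1, h2, ?_⟩
  rw [AA_neg α (by linarith)] at h5
  exact (Real.rpow_le_rpow_of_exponent_le h4 hca.le).trans h5

theorem powers_pos {α : PS S → Fin n → ℂ} {c a : ℝ} (hca : c < a)
    (h : ∀ lam : ℝ, 0 < lam → lam ≤ 1 → ∀ᶠ Y : ℝ in atTop, ∃ u : ℝ,
      |u - Y| ≤ lam * Y ∧ Real.exp (a * u) ≤ AA (dd α) LL u) {δ : ℝ} (hδ : 0 < δ) :
    ∀ᶠ X : ℝ in atTop, ∃ x : ℝ, X ^ (1 - δ) ≤ x ∧ x ≤ X ∧ x ^ c ≤ ∑' y : PS S × ℕ, (open Classical in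
      if ((y.1.1 : ℕ) : ℝ) ^ (y.2 + 1) ≤ x then (‖∑ i, α y.1 i ^ (y.2 + 1)‖ ^ 2 - 1) / ((y.2 : ℝ) + 1) else 0) := by
  filter_upwards [to_window h hδ (eventually_ge_atTop 1)] with X hX
  obtain ⟨x, h1, h2, h4, h5⟩ := hX
  refine ⟨x, h1, h2, ?_⟩
  rw [AA_pos α (by linarith)] at h5
  exact (Real.rpow_le_rpow_of_exponent_le h4 hca.le).trans h5

end Pool.Agent.Q18.RS
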