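import Mathlib
import Pool.Agent.Q18.RS.Rat
import Pool.Agent.TH949.TX.GL3b
import Pool.Agent.TH949.TX.Enl

/-! Signed sums at every scale for `GL_3` over a number field. -/

set_option autoImplicit false

open Complex MeasureTheory Set Filter Topology NumberField IsDedekindDomain
open Pool.Agent.W189.TP (DS DS_diff DS_norm_le summ_mono)
open Pool.Agent.TH949.TX (AA AdjointGL3 gl3_core qq_fin LL_fin3 exp_LL3 LL_le3 order_eq norm_sq_sum norm_prod_lt
  euler_exp)
open Pool.Agent.TH861.GL3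

namespace Pool.Agent.Q18.RS

/-- large exponents: only one singularity is needed -/
theorem sum_neg_big {ι : Type*} [Countable ι] {d L : ι → ℝ} (hL : ∀ i, 0 ≤ L i)
    (habs : ∀ t : ℝ, 1 < t → Summable fun i => |d i| * Real.exp (-(t * L i)))
    {F : ℂ → ℂ} (hF : MeromorphicOn F univ) (hE : ∀ s : ℂ, 1 < s.re → F s = cexp (DS d L s))
    (hreal : ∀ x : ℝ, 1 / 2 ≤ x → 0 ≤ meromorphicOrderAt F (x : ℂ)) {c : ℝ} (hc0 : 1 / 2 ≤ c)
    {ρ : ℂ} (hρ : c < ρ.re) (ho : meromorphicOrderAt F ρ ≠ 0) :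
    ∃ a : ℝ, c < a ∧ 0 < a ∧ ∀ lam : ℝ, 0 < lam → lam ≤ 1 → ∀ᶠ Y : ℝ in atTop, ∃ u : ℝ, |u - Y| ≤ lam * Y ∧
      Real.exp (a * u) ≤ AA (fun i => -d i) L u := by
  refine ⟨(c + ρ.re) / 2, by linarith, by linarith, fun lam hlam hlam1 => ?_⟩
  refine Pool.Agent.TH949.TX.main_sum (d := fun i => -d i) (F := F⁻¹) hL (fun t ht => ?_) hF.inv (fun s hs => ?_)
    (by linarith) (fun x hx => ?_) ⟨ρ, by linarith, ?_⟩ hlam hlam1
  · simpa only [abs_neg] using habs t ht
  · rw [Pi.inv_apply, hE s hs, ds_neg, Complex.exp_neg]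
  · rw [meromorphicOrderAt_inv]
    have h6 := hreal x (by linarith)
    cases h7 : meromorphicOrderAt F (x : ℂ) with
    | top => exact absurd h7 (order_ne_top hL habs hF hE _)
    | coe m =>
      rw [h7] at h6
      have h8 : 0 ≤ m := by exact_mod_cast h6
      have h9 : (-(m : WithTop ℤ)) = ((-m : ℤ) : WithTop ℤ) := rfl
      rw [h9]
      exact_mod_cast (by omega : -m ≤ 0)
  · rw [meromorphicOrderAt_inv]
    intro h6
    apply ho
    cases h7 : meromorphicOrderAt F ρ with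
    | top => rw [h7] at h6; exact absurd h6 (by simp)
    | coe m =>
      rw [h7] at h6
      have h9 : (-(m : WithTop ℤ)) = ((-m : ℤ) : WithTop ℤ) := rfl
      rw [h9] at h6
      have h10 : -m = 0 := by exact_mod_cast h6
      have h11 : m = 0 := by omega
      rw [h11]
      rfl

variable {K : Type*} [Field K] [NumberField K] {S : Finset (HeightOneSpectrum (𝓞 K))}

/-- the partial adjoint `L`-function `L^S(s, π, Ad)` has a zero or a pole of real part `> c` -/
def Sing3 (α : PL S → Fin 3 → ℂ) (c : ℝ) : Prop :=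
  ∃ (F : ℂ → ℂ) (ρ : ℂ), MeromorphicOn F Set.univ ∧ (∀ s : ℂ, 1 < s.re → F s = Complex.exp (logAd α s)) ∧
    c < ρ.re ∧ meromorphicOrderAt F ρ ≠ 0

theorem qq_cpow_norm (v : HeightOneSpectrum (𝓞 K)) (s : ℂ) : ‖((qq v : ℕ) : ℂ) ^ (-s)‖ = (qq v : ℝ) ^ (-s.re) := by
  rw [Complex.norm_natCast_cpow_of_pos, Complex.neg_re]
  have := two_le_qq v
  omega

theorem norm_bd3 {α : PL S → Fin 3 → ℂ} (h : ∀ σ : ℝ, 1 < σ → Summable fun x : PL S × ℕ =>
    ‖∑ i, α x.1 i ^ (x.2 + 1)‖ ^ 2 / ((x.2 : ℝ) + 1) * (((qq x.1.1 : ℕ) : ℝ) ^ (-σ)) ^ (x.2 + 1)) (v : PL S) (i : Fin 3)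
    {s : ℂ} (hs : 1 < s.re) : ‖α v i‖ ^ 2 * ‖((qq v.1 : ℕ) : ℂ) ^ (-s)‖ < 1 := by
  have hp : (0 : ℝ) < ((qq v.1 : ℕ) : ℝ) := qq_pos v.1
  have hp1 : (1 : ℝ) < ((qq v.1 : ℕ) : ℝ) := one_lt_qq v.1
  set t : ℝ := (1 + s.re) / 2 with ht
  have ht1 : 1 < t := by rw [ht]; linarith
  have hts : t < s.re := by rw [ht]; linarith
  have hC0 : 0 < ((qq v.1 : ℕ) : ℝ) ^ (-t) := by positivity
  have hC1 : ((qq v.1 : ℕ) : ℝ) ^ (-t) < 1 := Real.rpow_lt_one_of_one_lt_of_neg hp1 (by linarith)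
  have h1 : Summable fun k : ℕ => (‖∑ i, α v i ^ (k + 1)‖ ^ 2 - 1) / ((k : ℝ) + 1) *
      (((qq v.1 : ℕ) : ℝ) ^ (-t)) ^ (k + 1) := by
    have h2 := (h t ht1).comp_injective (i := fun k : ℕ => ((v, k) : PL S × ℕ))
      (fun a b hab => (Prod.mk.inj hab).2)
    have hgeo : Summable fun k : ℕ => (((qq v.1 : ℕ) : ℝ) ^ (-t)) ^ (k + 1) := by
      have := (summable_geometric_of_lt_one hC0.le hC1).mul_right (((qq v.1 : ℕ) : ℝ) ^ (-t))
      refine this.congr fun k => ?_
      rw [pow_succ]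
    have h3 : Summable fun k : ℕ => 1 / ((k : ℝ) + 1) * (((qq v.1 : ℕ) : ℝ) ^ (-t)) ^ (k + 1) := by
      refine Summable.of_nonneg_of_le (fun k => by positivity) (fun k => ?_) hgeo
      refine mul_le_of_le_one_left (by positivity) ?_
      have := Pool.Agent.TH949.RES.inv_le_one' k
      rwa [abs_of_nonneg (by positivity)] at this
    refine (h2.sub h3).congr fun k => ?_
    simp only [Function.comp]
    ring
  have h3 := Pool.Agent.TH949.RES.norm_le_one_of_summable h1 hC0 hC1 i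
  have h4 : ‖((qq v.1 : ℕ) : ℂ) ^ (-s)‖ < ((qq v.1 : ℕ) : ℝ) ^ (-t) := by
    rw [qq_cpow_norm]
    exact Real.rpow_lt_rpow_of_exponent_lt hp1 (by linarith)
  rcases (sq_nonneg ‖α v i‖).lt_or_eq with h5 | h5
  · calc ‖α v i‖ ^ 2 * ‖((qq v.1 : ℕ) : ℂ) ^ (-s)‖ < ‖α v i‖ ^ 2 * ((qq v.1 : ℕ) : ℝ) ^ (-t) := by gcongr
      _ ≤ 1 := h3
  · rw [← h5, zero_mul]
    exact one_pos

/-- the coefficients without the ones at the place `v` -/
noncomputable def dd' (α : PL S → Fin 3 → ℂ) (v : PL S) (x : PL S × ℕ) : ℝ :=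
  open scoped Classical in if x.1 = v then 0 else dd α x

theorem ds_split {α : PL S → Fin 3 → ℂ} (v : PL S) {s : ℂ}
    (hs : Summable fun x : PL S × ℕ => (dd α x : ℂ) * cexp (-(s * LL x))) :
    DS (dd α) LL s = DS (dd' α v) LL s + ∑' k : ℕ, (dd α (v, k) : ℂ) * cexp (-(s * LL (v, k))) := by
  classical
  set f : PL S × ℕ → ℂ := fun x => (dd α x : ℂ) * cexp (-(s * LL x)) with hf
  set A : Set (PL S × ℕ) := {x | x.1 = v} with hA
  have h1 : f = fun x => A.indicator f x + Aᶜ.indicator f x := by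
    funext x
    exact (congrFun (Set.indicator_self_add_compl A f) x).symm
  have e0 : DS (dd α) LL s = ∑' x, f x := rfl
  rw [e0, h1, (hs.indicator A).tsum_add (hs.indicator Aᶜ), add_comm]
  congr 1
  · unfold DS
    refine tsum_congr fun x => ?_
    unfold dd'
    by_cases hx : x.1 = v
    · rw [if_pos hx, Set.indicator_of_notMem (Set.notMem_compl_iff.2 (show x ∈ A from hx))]
      simp
    · rw [if_neg hx, Set.indicator_of_mem (show x ∈ Aᶜ from hx)]
  · have hg : Function.Injective (fun k : ℕ => ((v, k) : PL S × ℕ)) := fun a b h => (Prod.mk.inj h).2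
    rw [← hg.tsum_eq]
    · refine tsum_congr fun k => ?_
      rw [Set.indicator_of_mem (show ((v, k) : PL S × ℕ) ∈ A from rfl)]
    · intro x hx
      have h2 : x ∈ A := by
        by_contra h3
        exact hx (Set.indicator_of_notMem h3 f)
      exact ⟨x.2, Prod.ext (Eq.symm h2) rfl⟩

/-- the local factor -/
theorem local_exp {α : PL S → Fin 3 → ℂ} (h : AdjointGL3 α) (v : PL S) {s : ℂ} (hs : 1 < s.re) :
    cexp (∑' k : ℕ, (dd α (v, k) : ℂ) * cexp (-(s * LL (v, k)))) *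
      ∏ x : Fin 3 × Fin 3, (1 - α v x.1 * (starRingEnd ℂ) (α v x.2) * ((qq v.1 : ℕ) : ℂ) ^ (-s)) =
      1 - ((qq v.1 : ℕ) : ℂ) ^ (-s) := by
  set z : ℂ := ((qq v.1 : ℕ) : ℂ) ^ (-s) with hz
  have hzn : ‖z‖ < 1 := by
    rw [hz, qq_cpow_norm]
    exact Real.rpow_lt_one_of_one_lt_of_neg (one_lt_qq v.1) (by linarith)
  have h1 := euler_exp (α v) (z := z) (fun i => norm_bd3 h.summable v i hs)
  have h2 := Pool.Agent.TH949.TX.euler_hasSum (α v) (z := z) (fun i => norm_bd3 h.summable v i hs)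
  have h3 : HasSum (fun k : ℕ => z ^ (k + 1) / ((k : ℂ) + 1)) (-Complex.log (1 - z)) :=
    Complex.hasSum_taylorSeries_neg_log' hzn
  have h4 : ∀ k : ℕ, (dd α (v, k) : ℂ) * cexp (-(s * LL (v, k))) =
      ((‖∑ i, α v i ^ (k + 1)‖ ^ 2 / ((k : ℝ) + 1) : ℝ) : ℂ) * z ^ (k + 1) - z ^ (k + 1) / ((k : ℂ) + 1) := by
    intro k
    rw [exp_LL]
    unfold dd
    push_cast
    rw [← hz]
    ring
  simp_rw [h4]
  rw [h2.summable.tsum_sub h3.summable, Complex.exp_sub, h3.tsum_eq, Complex.exp_neg]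
  have hne : (1 : ℂ) - z ≠ 0 := by
    intro h0
    rw [sub_eq_zero] at h0
    rw [← h0, norm_one] at hzn
    exact lt_irrefl _ hzn
  rw [Complex.exp_log hne, div_inv_eq_mul]
  linear_combination (1 - z) * h1

theorem zfun (v : PL S) (s : ℂ) : ((qq v.1 : ℕ) : ℂ) ^ (-s) = cexp (-(s * Real.log (qq v.1 : ℝ))) := by
  have hp : ((qq v.1 : ℕ) : ℂ) ≠ 0 := by
    have := two_le_qq v.1
    exact_mod_cast (by omega : qq v.1 ≠ 0)
  rw [Complex.cpow_def_of_ne_zero hp]
  congr 1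
  push_cast
  ring

/-- the singularity after removing the local factor at `v` -/
theorem place_core {α : PL S → Fin 3 → ℂ} (h : AdjointGL3 α) (v : PL S) (i : Fin 3) {θ : ℝ} (hθ : 1 / 4 ≤ θ)
    (hi : ‖α v i‖ = (qq v.1 : ℝ) ^ θ) : ∃ F : ℂ → ℂ, MeromorphicOn F univ ∧
    (∀ s : ℂ, 1 < s.re → F s = cexp (DS (dd' α v) LL s)) ∧
    (∀ x : ℝ, 1 / 2 ≤ x → 0 ≤ meromorphicOrderAt F (x : ℂ)) ∧
    meromorphicOrderAt F ((2 * θ : ℝ) : ℂ) ≠ 0 := by
  obtain ⟨F0, hF0, hE, hreal, -⟩ := gl3_core h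
  set q : ℝ := (qq v.1 : ℝ) with hq
  have hq0 : 0 < q := qq_pos v.1
  have hq1 : 1 < q := one_lt_qq v.1
  have hlq : 0 < Real.log q := Real.log_pos hq1
  set z : ℂ → ℂ := fun s => cexp (-(s * Real.log q)) with hz
  set P : ℂ → ℂ := fun s => ∏ x : Fin 3 × Fin 3, (1 - α v x.1 * (starRingEnd ℂ) (α v x.2) * z s) with hP
  set R : ℂ → ℂ := fun s => 1 - z s with hR
  have hzd : Differentiable ℂ z := by
    rw [hz]
    fun_prop
  have hPd : Differentiable ℂ P := by
    rw [hP]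
    fun_prop
  have hRd : Differentiable ℂ R := by
    rw [hR]
    fun_prop
  have hRr : ∀ x : ℝ, 0 < x → R (x : ℂ) ≠ 0 := by
    intro x hx h0
    rw [hR] at h0
    simp only at h0
    rw [sub_eq_zero] at h0
    have h1 : ‖z (x : ℂ)‖ < 1 := by
      rw [hz]
      simp only
      rw [Complex.norm_exp]
      have e : (-((x : ℂ) * ((Real.log q : ℝ) : ℂ))).re = -(x * Real.log q) := by
        rw [← Complex.ofReal_mul, ← Complex.ofReal_neg, Complex.ofReal_re]
      rw [e, Real.exp_lt_one_iff]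
      have := mul_pos hx hlq
      linarith
    rw [← h0, norm_one] at h1
    exact lt_irrefl _ h1
  have hsd : ∀ t : ℝ, 1 < t → Summable fun x : PL S × ℕ => |dd α x| * Real.exp (-(t * LL x)) :=
    fun t ht => summable_abs h.auto.cuspidal ht
  have hPR : ∀ x : ℝ, 0 < x → AnalyticAt ℂ (fun s => P s / R s) (x : ℂ) := fun x hx =>
    (hPd.analyticAt _).div (hRd.analyticAt _) (hRr x hx)
  refine ⟨fun s => F0 s * (P s / R s), fun s hs => (hF0 s hs).mul
    ((hPd.analyticAt s).meromorphicAt.div (hRd.analyticAt s).meromorphicAt), fun s hs => ?_, fun x hx => ?_, ?_⟩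
  · have h1 := local_exp h v hs
    have h2 := ds_split (α := α) v (s := s) (by
      refine Summable.of_norm ((hsd s.re hs).congr fun x => ?_)
      rw [norm_mul, Complex.norm_exp, Complex.norm_real, Real.norm_eq_abs]
      congr 2
      rw [Complex.neg_re, Complex.re_mul_ofReal])
    rw [zfun] at h1
    have hRne : R s ≠ 0 := by
      intro h0
      rw [hR] at h0
      simp only at h0
      rw [sub_eq_zero] at h0
      have h3 : ‖z s‖ < 1 := by
        rw [hz]
        simp only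
        rw [Complex.norm_exp, Complex.neg_re, Complex.re_mul_ofReal, Real.exp_lt_one_iff]
        have := mul_pos (by linarith : 0 < s.re) hlq
        linarith
      rw [← h0, norm_one] at h3
      exact lt_irrefl _ h3
    have h3 : cexp (∑' k : ℕ, (dd α (v, k) : ℂ) * cexp (-(s * LL (v, k)))) * P s = R s := h1
    have h4 : P s / R s = (cexp (∑' k : ℕ, (dd α (v, k) : ℂ) * cexp (-(s * LL (v, k)))))⁻¹ := by
      rw [← h3, div_mul_eq_div_div_swap, div_self, one_div]
      intro h5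
      rw [h5, mul_zero] at h3
      exact hRne h3.symm
    show F0 s * (P s / R s) = _
    rw [hE s hs, h2, Complex.exp_add, h4]
    field_simp
  · have h1 : meromorphicOrderAt (fun s => F0 s * (P s / R s)) (x : ℂ) =
        meromorphicOrderAt F0 (x : ℂ) + meromorphicOrderAt (fun s => P s / R s) (x : ℂ) :=
      meromorphicOrderAt_mul (hF0 _ (mem_univ _)) (hPR x (by linarith)).meromorphicAt
    rw [h1]
    exact add_nonneg (hreal x hx) (hPR x (by linarith)).meromorphicOrderAt_nonneg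
  · have hx0 : (0 : ℝ) < 2 * θ := by linarith
    have h1 : meromorphicOrderAt (fun s => F0 s * (P s / R s)) ((2 * θ : ℝ) : ℂ) =
        meromorphicOrderAt F0 ((2 * θ : ℝ) : ℂ) + meromorphicOrderAt (fun s => P s / R s) ((2 * θ : ℝ) : ℂ) :=
      meromorphicOrderAt_mul (hF0 _ (mem_univ _)) (hPR _ hx0).meromorphicAt
    have h2 := hreal (2 * θ) (by linarith)
    have hP0 : P ((2 * θ : ℝ) : ℂ) = 0 := by
      rw [hP]
      simp only
      refine Finset.prod_eq_zero (Finset.mem_univ (i, i)) ?_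
      simp only
      rw [Complex.mul_conj, Complex.normSq_eq_norm_sq, hi, sub_eq_zero, hz]
      simp only
      rw [← Complex.ofReal_mul, ← Complex.ofReal_neg, ← Complex.ofReal_exp, ← Complex.ofReal_mul]
      have e1 : (q ^ θ) ^ 2 * Real.exp (-(2 * θ * Real.log q)) = 1 := by
        rw [Real.rpow_def_of_pos hq0, ← Real.exp_nat_mul, ← Real.exp_add]
        rw [show ((2 : ℕ) : ℝ) * (Real.log q * θ) + -(2 * θ * Real.log q) = 0 by push_cast; ring, Real.exp_zero]
      rw [e1]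
      simp
    have h3 : meromorphicOrderAt (fun s => P s / R s) ((2 * θ : ℝ) : ℂ) ≠ 0 := by
      rw [(hPR _ hx0).meromorphicOrderAt_eq]
      have h4 : analyticOrderAt (fun s => P s / R s) ((2 * θ : ℝ) : ℂ) ≠ 0 :=
        (hPR _ hx0).analyticOrderAt_ne_zero.2
          (show P ((2 * θ : ℝ) : ℂ) / R ((2 * θ : ℝ) : ℂ) = 0 by rw [hP0, zero_div])
      intro h5
      cases h6 : analyticOrderAt (fun s => P s / R s) ((2 * θ : ℝ) : ℂ) with
      | top => rw [h6] at h5; exact absurd h5 (by simp)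
      | coe k =>
        rw [h6] at h5 h4
        apply h4
        have h7 : ((k : ℤ) : WithTop ℤ) = 0 := h5
        have h8 : (k : ℤ) = 0 := by exact_mod_cast h7
        have h9 : k = 0 := by exact_mod_cast h8
        rw [h9]
        rfl
    have h4 := (hPR _ hx0).meromorphicOrderAt_nonneg
    intro h5
    rw [h1] at h5
    exact h3 ((add_eq_zero_iff_of_nonneg h2 h4).1 h5).2

end Pool.Agent.Q18.RS
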