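import Mathlib
import Pool.Agent.Q18.RS.GL3

/-! Signed sums at every scale for `GL_3` over a number field. -/

set_option autoImplicit false

open Complex MeasureTheory Set Filter Topology NumberField IsDedekindDomain
open Pool.Agent.W189.TP (DS DS_diff DS_norm_le summ_mono)
open Pool.Agent.TH949.TX (AA AdjointGL3 gl3_core qq_fin LL_fin3 exp_LL3 LL_le3 order_eq)
open Pool.Agent.TH861.GL3

namespace Pool.Agent.Q18.RS

variable {K : Type*} [Field K] [NumberField K] {S : Finset (HeightOneSpectrum (𝓞 K))}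

/-- the weight of the higher prime powers -/
noncomputable def hp (σ : ℝ) (y : PL S × ℕ) : ℝ := if y.2 = 0 then 0 else Real.exp (-(σ / 2 * LL y))

theorem hp_nonneg (σ : ℝ) (y : PL S × ℕ) : 0 ≤ hp σ y := by
  unfold hp
  split_ifs
  · exact le_rfl
  · positivity

theorem hp_summable {σ : ℝ} (hσ : 1 < σ) : Summable (hp (S := S) (K := K) σ) := by
  have hr0 : 0 < (2 : ℝ) ^ (-(σ / 2)) := by positivity
  have hr1 : (2 : ℝ) ^ (-(σ / 2)) < 1 := Real.rpow_lt_one_of_one_lt_of_neg (by norm_num) (by linarith)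
  have h1 : Summable fun k : ℕ => ((2 : ℝ) ^ (-(σ / 2))) ^ k * ((2 : ℝ) ^ (-(σ / 2)))⁻¹ :=
    (summable_geometric_of_lt_one hr0.le hr1).mul_right _
  have h2 := (summable_qq (S := S) (K := K) hσ).mul_of_nonneg h1 (fun v => by
    have := (qq_pos v.1).le
    positivity) (fun k => by positivity)
  refine Summable.of_nonneg_of_le (hp_nonneg σ) (fun y => ?_) h2
  obtain ⟨v, k⟩ := y
  unfold hp
  simp only
  have hq : (2 : ℝ) ≤ (qq v.1 : ℝ) := by exact_mod_cast two_le_qq v.1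
  have hq0 : (0 : ℝ) < (qq v.1 : ℝ) := qq_pos v.1
  split_ifs with hk
  · positivity
  · obtain ⟨j, rfl⟩ : ∃ j, k = j + 1 := ⟨k - 1, by omega⟩
    have e1 : Real.exp (-(σ / 2 * LL (v, j + 1))) = (qq v.1 : ℝ) ^ (-σ) * ((qq v.1 : ℝ) ^ (-(σ / 2))) ^ j := by
      rw [rexp_LL]
      show ((qq v.1 : ℝ) ^ (-(σ / 2))) ^ (j + 1 + 1) = _
      rw [pow_succ, pow_succ, mul_assoc, ← Real.rpow_add hq0, mul_comm]
      congr 2
      ring
    have e2 : ((2 : ℝ) ^ (-(σ / 2))) ^ (j + 1) * ((2 : ℝ) ^ (-(σ / 2)))⁻¹ = ((2 : ℝ) ^ (-(σ / 2))) ^ j := by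
      rw [pow_succ, mul_assoc, mul_inv_cancel₀ hr0.ne', mul_one]
    rw [e1, e2]
    refine mul_le_mul_of_nonneg_left ?_ (by positivity)
    exact pow_le_pow_left₀ (by positivity) (Real.rpow_le_rpow_of_nonpos (by norm_num) hq (by linarith)) j

/-- the higher prime powers contribute little -/
theorem AA_split {e : PL S × ℕ → ℝ} (he : ∀ y, e y ≤ 1) {σ : ℝ} (hσ : 1 < σ) {x : ℝ} (hx : 1 ≤ x) :
    AA e LL (Real.log x) ≤ (∑' v : PL S, (open Classical in if (qq v.1 : ℝ) ≤ x then e (v, 0) else 0)) +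
      x ^ (σ / 2) * ∑' y, hp (S := S) (K := K) σ y := by
  classical
  have hx0 : 0 < x := by linarith
  set f : PL S × ℕ → ℝ := fun y => if LL y ≤ Real.log x then e y else 0 with hf
  have hfin : Summable f := summable_of_finite_support ((LL_fin3 (S := S) (Real.log x)).subset fun y hy => by
    by_contra h2
    apply hy
    rw [hf]
    simp only
    exact if_neg h2)
  set A : Set (PL S × ℕ) := {y | y.2 = 0} with hA
  have h1 : f = fun y => A.indicator f y + Aᶜ.indicator f y := by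
    funext y
    exact (congrFun (Set.indicator_self_add_compl A f) y).symm
  have e0 : AA e LL (Real.log x) = ∑' y, f y := rfl
  have e1 : ∑' y, f y = ∑' y, A.indicator f y + ∑' y, Aᶜ.indicator f y := by
    conv_lhs => rw [h1]
    exact (hfin.indicator A).tsum_add (hfin.indicator Aᶜ)
  rw [e0, e1]
  refine add_le_add (le_of_eq ?_) ?_
  · have hg : Function.Injective (fun v : PL S => ((v, 0) : PL S × ℕ)) := fun a b h => (Prod.mk.inj h).1
    rw [← hg.tsum_eq]
    · refine tsum_congr fun v => ?_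
      rw [Set.indicator_of_mem (show ((v, 0) : PL S × ℕ) ∈ A from rfl), hf]
      simp only
      have h2 : LL ((v, 0) : PL S × ℕ) ≤ Real.log x ↔ (qq v.1 : ℝ) ≤ x := by
        rw [LL_le3 hx0]
        simp
      simp only [h2]
    · intro y hy
      have h2 : y ∈ A := by
        by_contra h3
        exact hy (Set.indicator_of_notMem h3 f)
      exact ⟨y.1, Prod.ext rfl (Eq.symm h2)⟩
  · rw [← tsum_mul_left]
    refine (hfin.indicator Aᶜ).tsum_le_tsum (fun y => ?_) ((hp_summable hσ).mul_left _)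
    by_cases hy : y ∈ A
    · rw [Set.indicator_of_notMem (Set.notMem_compl_iff.2 hy)]
      exact mul_nonneg (by positivity) (hp_nonneg σ y)
    · rw [Set.indicator_of_mem (show y ∈ Aᶜ from hy), hf]
      simp only
      unfold hp
      rw [if_neg (show ¬ y.2 = 0 from hy)]
      split_ifs with h2
      · refine (he y).trans ?_
        rw [Real.rpow_def_of_pos hx0, ← Real.exp_add]
        refine Real.one_le_exp ?_
        have : 0 < σ / 2 := by linarith
        nlinarith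
      · positivity

/-- from the signed sum over the prime powers to the one over the primes -/
theorem primes3 {e : PL S × ℕ → ℝ} (he : ∀ y, e y ≤ 1) {c a B : ℝ} (hc : 1 / 2 ≤ c) (hca : c < a)
    (h : ∀ lam : ℝ, 0 < lam → lam ≤ 1 → ∀ᶠ Y : ℝ in atTop, ∃ u : ℝ,
      |u - Y| ≤ lam * Y ∧ Real.exp (a * u) ≤ AA e LL u) {δ : ℝ} (hδ : 0 < δ) :
    ∀ᶠ X : ℝ in atTop, ∃ x : ℝ, X ^ (1 - δ) ≤ x ∧ x ≤ X ∧ x ^ c + B ≤ ∑' v : PL S, (open Classical in
      if (qq v.1 : ℝ) ≤ x then e (v, 0) else 0) := by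
  set σ : ℝ := c + a with hσ
  have hσ1 : 1 < σ := by rw [hσ]; linarith
  set M : ℝ := ∑' y, hp (S := S) (K := K) σ y with hM
  have hM0 : 0 ≤ M := tsum_nonneg fun y => hp_nonneg σ y
  have hbig : ∀ᶠ x : ℝ in atTop, x ^ c + B + x ^ (σ / 2) * M ≤ x ^ a := by
    have h1 : Tendsto (fun x : ℝ => x ^ (a - σ / 2)) atTop atTop := tendsto_rpow_atTop (by rw [hσ]; linarith)
    filter_upwards [h1.eventually_ge_atTop (1 + |B| + M), eventually_ge_atTop 1] with x h2 h3
    have hx0 : 0 < x := by linarith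
    have e1 : x ^ a = x ^ (a - σ / 2) * x ^ (σ / 2) := by
      rw [← Real.rpow_add hx0]
      congr 1
      ring
    have e2 : x ^ c ≤ x ^ (σ / 2) := Real.rpow_le_rpow_of_exponent_le h3 (by rw [hσ]; linarith)
    have e3 : 1 ≤ x ^ (σ / 2) := Real.one_le_rpow h3 (by linarith)
    have e4 : B ≤ |B| * x ^ (σ / 2) := by
      have := le_abs_self B
      have := abs_nonneg B
      nlinarith
    rw [e1]
    nlinarith
  filter_upwards [to_window h hδ ((eventually_ge_atTop 1).and hbig)] with X hX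
  obtain ⟨x, h1, h2, ⟨h3, h4⟩, h5⟩ := hX
  refine ⟨x, h1, h2, ?_⟩
  have h6 := AA_split (S := S) he hσ1 h3
  linarith

theorem neg_dd_le (α : PL S → Fin 3 → ℂ) (y : PL S × ℕ) : -dd α y ≤ 1 := by
  unfold dd
  have hk : (0 : ℝ) ≤ y.2 := Nat.cast_nonneg _
  rw [← neg_div, div_le_one (by linarith)]
  nlinarith [sq_nonneg ‖∑ i, α y.1 i ^ (y.2 + 1)‖]

theorem neg_dd'_le (α : PL S → Fin 3 → ℂ) (v : PL S) (y : PL S × ℕ) : -dd' α v y ≤ 1 := by
  unfold dd'
  split_ifs
  · norm_num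
  · exact neg_dd_le α y

/-- the signed sum over the prime powers, below the real part of a singularity -/
theorem key3 {α : PL S → Fin 3 → ℂ} (h : AdjointGL3 α) {c : ℝ} (hc : c < 1 / 2 ∨ Sing3 α c) :
    ∃ a : ℝ, c < a ∧ 0 < a ∧ ∀ lam : ℝ, 0 < lam → lam ≤ 1 → ∀ᶠ Y : ℝ in atTop, ∃ u : ℝ,
      |u - Y| ≤ lam * Y ∧ Real.exp (a * u) ≤ AA (fun y => -dd α y) LL u := by
  have := countable_primes K
  obtain ⟨F0, hF0, hE, hreal, hex⟩ := gl3_core h
  have hsd : ∀ t : ℝ, 1 < t → Summable fun x : PL S × ℕ => |dd α x| * Real.exp (-(t * LL x)) :=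
    fun t ht => summable_abs h.auto.cuspidal ht
  refine sum_neg LL_nonneg hsd hF0 hE hreal hex ?_
  rcases hc with h1 | ⟨F, ρ, hF, hFE, h3, h5⟩
  · exact Or.inl h1
  · refine Or.inr ⟨ρ, h3, ?_⟩
    rw [← order_eq hF hF0 (fun s hs => ?_) ρ]
    · exact h5
    · rw [hFE s hs, hE s hs, logAd_eq]

/-- the signed sum without the place `v`, if `π_v` violates the conjecture -/
theorem key3_place {α : PL S → Fin 3 → ℂ} (h : AdjointGL3 α) {c : ℝ} (hc0 : 1 / 2 ≤ c) {v : PL S} {i : Fin 3}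
    (hc : c < 2 * |Real.logb (qq v.1 : ℝ) ‖α v i‖|) :
    ∃ a : ℝ, c < a ∧ 0 < a ∧ ∀ lam : ℝ, 0 < lam → lam ≤ 1 → ∀ᶠ Y : ℝ in atTop, ∃ u : ℝ,
      |u - Y| ≤ lam * Y ∧ Real.exp (a * u) ≤ AA (fun y => -dd' α v y) LL u := by
  classical
  have := countable_primes K
  have hp0 : (0 : ℝ) < (qq v.1 : ℝ) := qq_pos v.1
  have hp1 : (1 : ℝ) < (qq v.1 : ℝ) := one_lt_qq v.1
  obtain ⟨i', θ, hθ, hi'⟩ : ∃ (i' : Fin 3) (θ : ℝ), c < 2 * θ ∧ ‖α v i'‖ = (qq v.1 : ℝ) ^ θ := by
    set t : ℝ := Real.logb (qq v.1 : ℝ) ‖α v i‖ with ht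
    have h0 : 0 < ‖α v i‖ := norm_pos_iff.2 ((h.unitary v).1 i)
    have h1 : (qq v.1 : ℝ) ^ t = ‖α v i‖ := Real.rpow_logb hp0 hp1.ne' h0
    rcases le_total 0 t with h2 | h2
    · rw [abs_of_nonneg h2] at hc
      exact ⟨i, t, hc, h1.symm⟩
    · rw [abs_of_nonpos h2] at hc
      have h3 : ((starRingEnd ℂ) (α v i))⁻¹ ∈ Multiset.map (α v) Finset.univ.val := by
        rw [← (h.unitary v).2]
        exact Multiset.mem_map_of_mem (fun i => ((starRingEnd ℂ) (α v i))⁻¹) (Finset.mem_univ_val i)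
      obtain ⟨j, -, hj⟩ := Multiset.mem_map.1 h3
      refine ⟨j, -t, hc, ?_⟩
      rw [hj, norm_inv, RCLike.norm_conj, ← h1, Real.rpow_neg hp0.le]
  obtain ⟨F, hF, hE, hreal, ho⟩ := place_core h v i' (θ := θ) (by linarith) hi'
  refine sum_neg_big LL_nonneg (fun t ht => ?_) hF hE hreal hc0 (ρ := ((2 * θ : ℝ) : ℂ)) (by simpa using hθ) ho
  refine Summable.of_nonneg_of_le (fun y => by positivity) (fun y => ?_) (summable_abs h.auto.cuspidal ht)
  unfold dd'
  split_ifs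
  · rw [abs_zero, zero_mul]
    positivity
  · exact le_rfl

/-- **The signed sum over the places at every scale.** -/
theorem gl3_primes {α : PL S → Fin 3 → ℂ} (h : AdjointGL3 α) {c δ : ℝ} (hc0 : 1 / 2 ≤ c)
    (hc : (∃ (v : PL S) (i : Fin 3), c < 2 * |Real.logb (qq v.1 : ℝ) ‖α v i‖|) ∨ Sing3 α c) (hδ : 0 < δ) :
    ∀ᶠ X : ℝ in atTop, ∃ x : ℝ, X ^ (1 - δ) ≤ x ∧ x ≤ X ∧ x ^ c ≤ ∑' v : PL S, (open Classical in
      if (qq v.1 : ℝ) ≤ x then 1 - ‖∑ i, α v i‖ ^ 2 else 0) := by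
  classical
  have hd0 : ∀ v : PL S, -dd α (v, 0) = 1 - ‖∑ i, α v i‖ ^ 2 := fun v => by
    unfold dd
    simp
  rcases hc with ⟨v, i, hc⟩ | hc
  · obtain ⟨a, h1, -, h2⟩ := key3_place h hc0 hc
    filter_upwards [primes3 (neg_dd'_le α v) (B := ‖∑ i, α v i‖ ^ 2) hc0 h1 h2 hδ] with X hX
    obtain ⟨x, h3, h4, h5⟩ := hX
    refine ⟨x, h3, h4, ?_⟩
    have hfin : ∀ g : PL S → ℝ, Summable fun w : PL S => if (qq w.1 : ℝ) ≤ x then g w else 0 := fun g =>
      summable_of_finite_support ((qq_fin (S := S) (Real.log x)).subset fun w hw => by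
        have h6 : (qq w.1 : ℝ) ≤ x := by
          by_contra h7
          exact hw (if_neg h7)
        exact Real.log_le_log (qq_pos w.1) h6)
    have h6 : (∑' w : PL S, if (qq w.1 : ℝ) ≤ x then -dd' α v (w, 0) else 0) ≤
        (∑' w : PL S, if (qq w.1 : ℝ) ≤ x then 1 - ‖∑ i, α w i‖ ^ 2 else 0) +
        ∑' w : PL S, if w = v then ‖∑ i, α v i‖ ^ 2 else 0 := by
      have h7 : Summable fun w : PL S => if w = v then ‖∑ i, α v i‖ ^ 2 else 0 :=
        summable_of_finite_support ((Set.finite_singleton v).subset fun w hw => by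
          by_contra h8
          exact hw (if_neg h8))
      rw [← (hfin _).tsum_add h7]
      refine (hfin _).tsum_le_tsum (fun w => ?_) ((hfin _).add h7)
      unfold dd'
      by_cases hw : w = v
      · subst hw
        simp only [if_true]
        have := sq_nonneg ‖∑ i, α w i‖
        split_ifs
        · linarith
        · linarith
      · rw [if_neg hw]
        rw [if_neg (show ¬ ((w, 0) : PL S × ℕ).1 = v from hw), hd0, add_zero]
    rw [tsum_ite_eq] at h6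
    linarith
  · obtain ⟨a, h1, -, h2⟩ := key3 h (Or.inr hc)
    filter_upwards [primes3 (neg_dd_le α) (B := 0) hc0 h1 h2 hδ] with X hX
    obtain ⟨x, h3, h4, h5⟩ := hX
    refine ⟨x, h3, h4, ?_⟩
    simp_rw [hd0] at h5
    linarith

/-- the signed sum over the prime powers -/
theorem gl3_powers {α : PL S → Fin 3 → ℂ} (h : AdjointGL3 α) {c δ : ℝ} (hc : c < 1 / 2 ∨ Sing3 α c) (hδ : 0 < δ) :
    ∀ᶠ X : ℝ in atTop, ∃ x : ℝ, X ^ (1 - δ) ≤ x ∧ x ≤ X ∧ x ^ c ≤ ∑' y : PL S × ℕ, (open Classical in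
      if (qq y.1.1 : ℝ) ^ (y.2 + 1) ≤ x then (1 - ‖∑ i, α y.1 i ^ (y.2 + 1)‖ ^ 2) / ((y.2 : ℝ) + 1) else 0) := by
  classical
  obtain ⟨a, h1, -, h2⟩ := key3 h hc
  filter_upwards [to_window h2 hδ (eventually_ge_atTop 1)] with X hX
  obtain ⟨x, h3, h4, h5, h6⟩ := hX
  refine ⟨x, h3, h4, (Real.rpow_le_rpow_of_exponent_le h5 h1.le).trans (h6.trans (le_of_eq ?_))⟩
  unfold AA
  refine tsum_congr fun y => ?_
  simp only [LL_le3 (show 0 < x by linarith)]
  split_ifs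
  · unfold dd
    ring
  · rfl

end Pool.Agent.Q18.RS
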